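import Pool.Agent.R267.Gap1

/-!
# MP_a53ef7_an: truncated gap integrals in dimension one

For `m = 1` and every `0 ≤ p < 1` the inequality `G_p^ε ≤ C (δ/ε)^(1-p) G_p^δ` fails, for every target
`N` that contains an isometric copy of an interval `[0, ℓ]` (every compact Riemannian manifold of
positive dimension: a minimising geodesic).  More precisely, for `δ < ε < ℓ` the supremum of the ratio
`G_p^ε / G_p^δ` over Lipschitz functions on `(-1, 1)` is at least `((ℓ - ε) / (ℓ - δ))^p`, which is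
`1` for `p = 0` and at least `2^(-p)` for `ε ≤ ℓ / 2`, however small `δ / ε` is.

The functions are smoothed jumps `γ (ℓ max 0 (min 1 (x / w)))` with `w → 0`: their gap integrals at the
threshold `t < ℓ` are `2 (ℓ - t)^p log (1 / w) + O(1)`.
-/

set_option autoImplicit false

open MeasureTheory Set
open scoped ENNReal

namespace Pool.Agent.Results.MP_a53ef7_an.DimensionOne

/-- The truncated gap integral `G_p^t(f, Ω)`:
`∫_Ω ∫_Ω 1_{d(f y, f x) ≥ t} (d(f y, f x) - t)^p / |y - x|^(2m) dy dx` (real powers, `0^0 = 1`). -/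
noncomputable def gapIntegral {m : ℕ} {N : Type} [MetricSpace N] (p t : ℝ)
    (f : EuclideanSpace ℝ (Fin m) → N) (Ω : Set (EuclideanSpace ℝ (Fin m))) : ℝ≥0∞ :=
  ∫⁻ x in Ω, ∫⁻ y in Ω, if t ≤ dist (f y) (f x) then
    ENNReal.ofReal ((dist (f y) (f x) - t) ^ p / ‖y - x‖ ^ (2 * m)) else 0

/-- The inequality of the question, for the dimension `m`, the exponent `p`, the target `N` and the
constant `C`. -/
def Inequality (m : ℕ) (N : Type) [MetricSpace N] [MeasurableSpace N] (p C : ℝ) : Prop :=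
  ∀ (Ω : Set (EuclideanSpace ℝ (Fin m))) (f : EuclideanSpace ℝ (Fin m) → N) (δ ε : ℝ),
    Convex ℝ Ω → Measurable f → 0 < δ → δ < ε →
      gapIntegral p ε f Ω ≤ ENNReal.ofReal (C * (δ / ε) ^ ((m : ℝ) - p)) * gapIntegral p δ f Ω

/-- `N` contains an isometric copy of the interval `[0, ℓ]`. -/
def HasArc (N : Type) [MetricSpace N] (ℓ : ℝ) : Prop :=
  ∃ γ : ℝ → N, ∀ s ∈ Icc 0 ℓ, ∀ t ∈ Icc 0 ℓ, dist (γ s) (γ t) = |s - t|

noncomputable def e1 : EuclideanSpace ℝ (Fin 1) ≃ᵐ ℝ :=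
  (MeasurableEquiv.toLp 2 (Fin 1 → ℝ)).symm.trans (MeasurableEquiv.funUnique (Fin 1) ℝ)

theorem e1_apply (x : EuclideanSpace ℝ (Fin 1)) : e1 x = x 0 := rfl

theorem e1_mp : MeasurePreserving e1 := by
  exact (volume_preserving_funUnique (Fin 1) ℝ).comp (PiLp.volume_preserving_ofLp (Fin 1))

theorem e1_norm (x : EuclideanSpace ℝ (Fin 1)) : ‖x‖ = |e1 x| := by
  rw [EuclideanSpace.norm_eq]
  simp [e1_apply, Real.sqrt_sq_eq_abs]

theorem e1_sub (x y : EuclideanSpace ℝ (Fin 1)) : e1 (x - y) = e1 x - e1 y := rfl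

theorem e1_ball : Metric.ball (0 : EuclideanSpace ℝ (Fin 1)) 1 = e1 ⁻¹' Ioo (-1) 1 := by
  ext x
  rw [mem_ball_zero_iff, e1_norm, mem_preimage, mem_Ioo, abs_lt]

theorem e1_int (g : ℝ → ℝ≥0∞) :
    ∫⁻ x in Metric.ball (0 : EuclideanSpace ℝ (Fin 1)) 1, g (e1 x) = ∫⁻ z in Ioo (-1 : ℝ) 1, g z := by
  rw [e1_ball]
  exact e1_mp.setLIntegral_comp_preimage_emb e1.measurableEmbedding g _

/-- the gap integral of a smoothed jump -/
theorem gap_ramp {N : Type} [MetricSpace N] {ℓ : ℝ} (hℓ : 0 < ℓ) {γ : ℝ → N}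
    (hγ : ∀ s ∈ Icc 0 ℓ, ∀ t ∈ Icc 0 ℓ, dist (γ s) (γ t) = |s - t|) (p t w : ℝ) :
    gapIntegral p t (fun x : EuclideanSpace ℝ (Fin 1) => γ (R267.Gap.ramp ℓ w (e1 x)))
      (Metric.ball 0 1) =
      ∫⁻ x in Ioo (-1 : ℝ) 1, ∫⁻ y in Ioo (-1 : ℝ) 1, R267.Gap.F ℓ w p t x y := by
  unfold gapIntegral
  rw [← e1_int (fun z => ∫⁻ y in Ioo (-1 : ℝ) 1, R267.Gap.F ℓ w p t z y)]
  apply lintegral_congr
  intro x
  rw [← e1_int (fun z => R267.Gap.F ℓ w p t (e1 x) z)]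
  apply lintegral_congr
  intro y
  unfold R267.Gap.F
  rw [hγ _ (R267.Gap.ramp_mem hℓ.le) _ (R267.Gap.ramp_mem hℓ.le), e1_norm, e1_sub, mul_one, sq_abs]

theorem lip_ramp {N : Type} [MetricSpace N] {ℓ : ℝ} (hℓ : 0 < ℓ) {γ : ℝ → N}
    (hγ : ∀ s ∈ Icc 0 ℓ, ∀ t ∈ Icc 0 ℓ, dist (γ s) (γ t) = |s - t|) {w : ℝ} (hw : 0 < w) :
    ∃ K : NNReal, LipschitzWith K
      (fun x : EuclideanSpace ℝ (Fin 1) => γ (R267.Gap.ramp ℓ w (e1 x))) := by
  refine ⟨Real.toNNReal (ℓ / w), LipschitzWith.of_dist_le_mul (fun x y => ?_)⟩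
  rw [hγ _ (R267.Gap.ramp_mem hℓ.le) _ (R267.Gap.ramp_mem hℓ.le), dist_eq_norm, e1_norm, e1_sub,
    Real.coe_toNNReal _ (by positivity)]
  exact R267.Gap.ramp_lip hℓ.le hw

theorem sharp (N : Type) [MetricSpace N] (ℓ : ℝ) (hN : HasArc N ℓ) (p δ ε c : ℝ) (hp : 0 ≤ p)
    (hδ : 0 < δ) (hδε : δ < ε) (hε : ε < ℓ) (hc0 : 0 ≤ c) (hc : c < ((ℓ - ε) / (ℓ - δ)) ^ p) :
    ∃ f : EuclideanSpace ℝ (Fin 1) → N, (∃ K : NNReal, LipschitzWith K f) ∧
      ENNReal.ofReal c * gapIntegral p δ f (Metric.ball 0 1) <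
        gapIntegral p ε f (Metric.ball 0 1) := by
  obtain ⟨γ, hγ⟩ := hN
  have hℓ : 0 < ℓ := by linarith
  obtain ⟨w, hw, _, h⟩ := R267.Gap.compare hp hδ hδε hε hc0 hc
  refine ⟨fun x => γ (R267.Gap.ramp ℓ w (e1 x)), lip_ramp hℓ hγ hw, ?_⟩
  rw [gap_ramp hℓ hγ, gap_ramp hℓ hγ]
  exact h

theorem arc_circle (T : ℝ) [hT : Fact (0 < T)] : HasArc (AddCircle T) (T / 2) := by
  refine ⟨fun s => (s : AddCircle T), fun s hs t ht => ?_⟩
  rw [dist_eq_norm, ← AddCircle.coe_sub, AddCircle.norm_coe_eq_abs_iff T hT.out.ne']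
  rw [abs_of_pos hT.out, abs_le]
  constructor <;> [linarith [hs.1, ht.2]; linarith [hs.2, ht.1]]

theorem neg (N : Type) [MetricSpace N] [MeasurableSpace N] [BorelSpace N] (ℓ : ℝ) (hℓ : 0 < ℓ)
    (hN : HasArc N ℓ) (p : ℝ) (hp : 0 ≤ p) (hp1 : p < 1) : ¬ ∃ C : ℝ, Inequality 1 N p C := by
  rintro ⟨C, hC⟩
  -- choose δ
  have hs : 0 < ((1 : ℕ) : ℝ) - p := by
    push_cast
    linarith
  have ht : Filter.Tendsto (fun δ : ℝ => C * (δ / (ℓ / 2)) ^ (((1 : ℕ) : ℝ) - p))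
      (nhdsWithin 0 (Ioi 0)) (nhds (C * (0 / (ℓ / 2)) ^ (((1 : ℕ) : ℝ) - p))) := by
    apply Filter.Tendsto.mono_left _ nhdsWithin_le_nhds
    apply Filter.Tendsto.const_mul
    have : ContinuousAt (fun δ : ℝ => (δ / (ℓ / 2)) ^ (((1 : ℕ) : ℝ) - p)) 0 := by
      apply ContinuousAt.rpow_const (by fun_prop)
      right
      exact hs.le
    exact this
  rw [zero_div, Real.zero_rpow hs.ne', mul_zero] at ht
  have h2 : 0 < (1 / 2 : ℝ) ^ p := by positivity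
  have hev := (ht.eventually (gt_mem_nhds h2)).and
    (Ioo_mem_nhdsGT (show (0 : ℝ) < ℓ / 2 by linarith))
  obtain ⟨δ, hδC, hδ0, hδℓ⟩ := hev.exists
  have hratio : (1 / 2 : ℝ) ^ p ≤ ((ℓ - ℓ / 2) / (ℓ - δ)) ^ p := by
    apply Real.rpow_le_rpow (by norm_num) _ hp
    rw [div_le_div_iff₀ (by norm_num) (by linarith)]
    linarith
  obtain ⟨f, ⟨K, hK⟩, hf⟩ := sharp N ℓ hN p δ (ℓ / 2)
    (max 0 (C * (δ / (ℓ / 2)) ^ (((1 : ℕ) : ℝ) - p))) hp hδ0 hδℓ (by linarith)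
    (le_max_left _ _) (max_lt (h2.trans_le hratio) (hδC.trans_le hratio))
  have := hC (Metric.ball 0 1) f δ (ℓ / 2) (convex_ball _ _) hK.continuous.measurable hδ0 hδℓ
  refine absurd (this.trans ?_) (not_le.2 hf)
  gcongr
  exact le_max_right _ _

/-- **The inequality of the question fails for `m = 1` and every `0 ≤ p < 1`**, for every target that
contains an isometric copy of an interval, for instance for the circle; and for all `δ < ε < ℓ`, however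
small `δ / ε` is, the ratio of the gap integrals of Lipschitz functions on `(-1, 1)` comes as close to
`((ℓ - ε) / (ℓ - δ))^p` as we please. -/
theorem result :
    (∀ (N : Type) [MetricSpace N] [MeasurableSpace N] [BorelSpace N] (ℓ : ℝ), 0 < ℓ → HasArc N ℓ →
      ∀ p : ℝ, 0 ≤ p → p < 1 → ¬ ∃ C : ℝ, Inequality 1 N p C) ∧
    (∀ T : ℝ, ∀ _ : Fact (0 < T), ∀ p : ℝ, 0 ≤ p → p < 1 →
      ¬ ∃ C : ℝ, Inequality 1 (AddCircle T) p C) ∧
    (∀ (N : Type) [MetricSpace N] (ℓ : ℝ), HasArc N ℓ →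
      ∀ p δ ε c : ℝ, 0 ≤ p → 0 < δ → δ < ε → ε < ℓ → 0 ≤ c → c < ((ℓ - ε) / (ℓ - δ)) ^ p →
        ∃ f : EuclideanSpace ℝ (Fin 1) → N, (∃ K : NNReal, LipschitzWith K f) ∧
          ENNReal.ofReal c * gapIntegral p δ f (Metric.ball 0 1) <
            gapIntegral p ε f (Metric.ball 0 1)) := by
  refine ⟨?_, ?_, ?_⟩
  · intro N _ _ _ ℓ hℓ hN p hp hp1
    exact neg N ℓ hℓ hN p hp hp1
  · intro T hT p hp hp1
    exact neg (AddCircle T) (T / 2) (by linarith [hT.out]) (arc_circle T) p hp hp1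
  · intro N _ ℓ hN p δ ε c hp hδ hδε hε hc0 hc
    exact sharp N ℓ hN p δ ε c hp hδ hδε hε hc0 hc

end Pool.Agent.Results.MP_a53ef7_an.DimensionOne
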